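import Pool.Agent.helper82.SW.SpecW

/-!
# sp: weak limits and bridges, module AVG: the coins of finitely many sites are uniform
-/

namespace Pool.Agent.helper82.SW

open MeasureTheory Filter Topology TopologicalSpace
open scoped BoundedContinuousFunction

theorem AVG_half (a : Bool) : (PMF.uniformOfFintype Bool).toMeasure {a} = 2⁻¹ := by
  rw [PMF.toMeasure_apply_singleton _ _ (measurableSet_singleton a), PMF.uniformOfFintype_apply]
  simp

instance AVG_prob : IsProbabilityMeasure DP.P1 := by
  unfold DP.P1
  infer_instance

theorem AVG_meas {ι : Type} (e : ι → ℤ × ℤ) :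
    Measurable fun (b : ℤ × ℤ → Bool) (x : ι) => b (e x) :=
  measurable_pi_lambda _ fun x => measurable_pi_apply (e x)

theorem AVG_cyl {ι : Type} [Fintype ι] (e : ι → ℤ × ℤ) (he : Function.Injective e) (c : ι → Bool) :
    (DP.P1.map fun b x => b (e x)).real {c} = 1 / 2 ^ Fintype.card ι := by
  classical
  rw [map_measureReal_apply (AVG_meas e) (measurableSet_singleton c)]
  set g : ℤ × ℤ → Bool := Function.extend e c (fun _ => true) with hg
  have hge : ∀ x, g (e x) = c x := fun x => he.extend_apply c _ x
  have h1 : (fun (b : ℤ × ℤ → Bool) (x : ι) => b (e x)) ⁻¹' {c} =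
      Set.pi ((Finset.univ.image e : Finset (ℤ × ℤ)) : Set (ℤ × ℤ)) fun v => {g v} := by
    ext b
    simp only [Set.mem_preimage, Set.mem_singleton_iff, Set.mem_pi, Finset.coe_image,
      Finset.coe_univ, Set.image_univ, Set.mem_range, forall_exists_index, forall_apply_eq_imp_iff]
    constructor
    · intro h x
      rw [hge, ← h]
    · intro h
      funext x
      rw [h x, hge]
  rw [h1]
  unfold Measure.real DP.P1
  rw [Measure.infinitePi_pi _ (fun _ _ => measurableSet_singleton _)]
  simp only [AVG_half]
  rw [Finset.prod_const, Finset.card_image_of_injective _ he, Finset.card_univ]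
  simp

theorem AVG_int {ι : Type} [Fintype ι] [DecidableEq ι] (e : ι → ℤ × ℤ) (he : Function.Injective e)
    (F : (ι → Bool) → ℝ) :
    ∫ b, F (fun x => b (e x)) ∂DP.P1 = (∑ c, F c) / 2 ^ Fintype.card ι := by
  have h1 : ∫ b, F (fun x => b (e x)) ∂DP.P1 = ∫ c, F c ∂(DP.P1.map fun b x => b (e x)) := by
    rw [integral_map (AVG_meas e).aemeasurable]
    exact (measurable_of_finite F).aestronglyMeasurable
  have h2 : IsProbabilityMeasure (DP.P1.map fun (b : ℤ × ℤ → Bool) (x : ι) => b (e x)) :=
    Measure.isProbabilityMeasure_map (AVG_meas e).aemeasurable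
  rw [h1, integral_fintype (Integrable.of_finite)]
  simp only [AVG_cyl e he, smul_eq_mul]
  rw [← Finset.mul_sum, one_div, div_eq_inv_mul]

theorem AVG_sh : Function.Injective sh := by
  rintro ⟨a, b⟩ ⟨a', b'⟩ h
  simp only [sh, Prod.mk.injEq] at h
  ext <;> simp <;> omega

theorem AVG_bij : Function.Bijective fun a : Bool => (if a = true then 1 else -1 : ℤˣ) := by
  constructor
  · intro a b h
    cases a <;> cases b <;> simp_all
  · intro u
    rcases Int.units_eq_one_or u with h | h
    · exact ⟨true, by simp [h]⟩
    · exact ⟨false, by simp [h]⟩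

theorem AVG : AVG_stmt := by
  constructor
  · intro n G
    have he : Function.Injective fun x : SpectralPivotal.sites n => sh x :=
      AVG_sh.comp Subtype.val_injective
    have h := AVG_int (fun x : SpectralPivotal.sites n => sh x) he
      (fun c => G fun x => if c x = true then 1 else -1)
    have h2 : ∫ b, G (cfg n b) ∂DP.P1 =
        ∫ b, G (fun x : SpectralPivotal.sites n => if b (sh x) = true then 1 else -1) ∂DP.P1 := rfl
    rw [h2, h]
    congr 1
    let E : (SpectralPivotal.sites n → Bool) ≃ SpectralPivotal.Config n :=
      Equiv.arrowCongr (Equiv.refl _) (Equiv.ofBijective _ AVG_bij)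
    exact E.sum_comp G
  · intro U E
    classical
    have he : Function.Injective fun x : {x // x ∈ U} => sh x :=
      AVG_sh.comp Subtype.val_injective
    let S : ({x // x ∈ U} → Bool) → Finset (ℤ × ℤ) := fun c =>
      (Finset.univ.filter fun x : {x // x ∈ U} => c x = false).image Subtype.val
    have hS : ∀ b : ℤ × ℤ → Bool, S (fun x => b (sh x)) = U.filter fun v => b (sh v) = false := by
      intro b
      ext v
      simp only [S, Finset.mem_image, Finset.mem_filter, Finset.mem_univ, true_and]
      constructor
      · rintro ⟨x, hx, rfl⟩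
        exact ⟨x.2, hx⟩
      · rintro ⟨h1, h2⟩
        exact ⟨⟨v, h1⟩, h2, rfl⟩
    have h := AVG_int (fun x : {x // x ∈ U} => sh x) he (fun c => if E (S c) then 1 else 0)
    have hset : {b : ℤ × ℤ → Bool | E (U.filter fun v => b (sh v) = false)} =
        (fun (b : ℤ × ℤ → Bool) (x : {x // x ∈ U}) => b (sh x)) ⁻¹' {c | E (S c)} := by
      ext b
      simp only [Set.mem_ofPred_eq, Set.mem_preimage, hS]
    have hmeas : MeasurableSet {b : ℤ × ℤ → Bool | E (U.filter fun v => b (sh v) = false)} := by
      rw [hset]
      exact AVG_meas (fun x : {x // x ∈ U} => sh x) (Set.toFinite _).measurableSet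
    have h3 : DP.Pr {b : ℤ × ℤ → Bool | E (U.filter fun v => b (sh v) = false)} =
        ∫ b : ℤ × ℤ → Bool, (if E (S fun x : {x // x ∈ U} => b (sh x)) then (1 : ℝ) else 0)
          ∂DP.P1 := by
      unfold DP.Pr
      rw [← integral_indicator_one hmeas]
      refine integral_congr_ae (Filter.Eventually.of_forall fun b => ?_)
      simp only [Set.indicator, Set.mem_ofPred_eq, hS, Pi.one_apply]
    rw [h3, h]
    unfold SC.prob
    have hcard : Fintype.card {x // x ∈ U} = U.card := by
      simp
    rw [hcard]
    congr 1
    rw [Finset.sum_boole]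
    congr 1
    have hinj : Function.Injective S := by
      intro c c' hcc
      funext x
      have h5 : ∀ c : {x // x ∈ U} → Bool, ((x : ℤ × ℤ) ∈ S c ↔ c x = false) := by
        intro c
        simp only [S, Finset.mem_image, Finset.mem_filter, Finset.mem_univ, true_and]
        constructor
        · rintro ⟨y, hy, hyx⟩
          rw [← Subtype.ext hyx]
          exact hy
        · intro hx
          exact ⟨x, hx, rfl⟩
      have h6 := h5 c
      rw [hcc, h5 c'] at h6
      cases hc : c x <;> cases hc' : c' x <;> simp_all
    have hrange : {s : Finset (ℤ × ℤ) | s ⊆ U ∧ E s} =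
        ((Finset.univ.filter fun c => E (S c)).image S : Finset (Finset (ℤ × ℤ))) := by
      ext s
      simp only [Set.mem_ofPred_eq, Finset.coe_image, Finset.coe_filter, Finset.mem_univ, true_and,
        Set.mem_image]
      constructor
      · rintro ⟨h7, h8⟩
        refine ⟨fun x => decide ((x : ℤ × ℤ) ∉ s), ?_, ?_⟩
        · have : S (fun x => decide ((x : ℤ × ℤ) ∉ s)) = s := by
            ext v
            simp only [S, Finset.mem_image, Finset.mem_filter, Finset.mem_univ, true_and]
            constructor
            · rintro ⟨y, hy, rfl⟩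
              simpa using hy
            · intro hv
              exact ⟨⟨v, h7 hv⟩, by simpa using hv, rfl⟩
          rw [this]
          exact h8
        · ext v
          simp only [S, Finset.mem_image, Finset.mem_filter, Finset.mem_univ, true_and]
          constructor
          · rintro ⟨y, hy, rfl⟩
            simpa using hy
          · intro hv
            exact ⟨⟨v, h7 hv⟩, by simpa using hv, rfl⟩
      · rintro ⟨c, hc, rfl⟩
        refine ⟨?_, hc⟩
        intro v hv
        simp only [S, Finset.mem_image, Finset.mem_filter, Finset.mem_univ, true_and] at hv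
        obtain ⟨y, -, rfl⟩ := hv
        exact y.2
    rw [hrange, Set.ncard_coe_finset, Finset.card_image_of_injective _ hinj]

end Pool.Agent.helper82.SW
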